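import Mathlib
import Pool.Agent.H11.Fr

namespace Pool.Agent.Results.MP_884c22_co.DegreeFour

open Finset Matrix Complex Polynomial

/-- `y` is the orthogonal projection `E_θ x` of `x` onto the `θ`-eigenspace of `A`. -/
def IsProj {V : Type} [Fintype V] (A : Matrix V V ℝ) (θ : ℝ) (x y : V → ℝ) : Prop :=
  A *ᵥ y = θ • y ∧ ∀ w, A *ᵥ w = θ • w → w ⬝ᵥ (x - y) = 0

/-- The eigenvalue support of `a`: the `θ` with `E_θ e_a ≠ 0`. -/
def supp {V : Type} [Fintype V] [DecidableEq V] (A : Matrix V V ℝ) (a : V) : Set ℝ :=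
  {θ | ∃ y, IsProj A θ (Pi.single a 1) y ∧ y ≠ 0}

def nn : Fin 10 → ℕ := ![1, 1, 14, 14, 14, 14, 98, 98, 98, 98]

def DD : Fin 10 → Fin 10 → ℕ := ![![0, 0, 14, 14, 0, 0, 0, 0, 0, 0],
    ![0, 0, 0, 0, 14, 14, 0, 0, 0, 0],
    ![1, 0, 0, 12, 6, 0, 14, 0, 0, 0],
    ![1, 0, 12, 0, 0, 6, 0, 14, 0, 0],
    ![0, 1, 6, 0, 0, 0, 0, 0, 14, 0],
    ![0, 1, 0, 6, 0, 0, 0, 0, 0, 14],
    ![0, 0, 2, 0, 0, 0, 0, 12, 0, 0],
    ![0, 0, 0, 2, 0, 0, 12, 0, 0, 0],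
    ![0, 0, 0, 0, 2, 0, 0, 0, 0, 12],
    ![0, 0, 0, 0, 0, 2, 0, 0, 12, 0]]

def Z0 : Fin 6 → Fin 10 → ℚ := ![![5/58, -3/29, 1/58, 1/58, -1/116, -1/116, -1/116, -1/116, 0, 0],
    ![6/29, 3/58, -1/116, -1/116, 1/232, 1/232, 1/232, 1/232, 0, 0],
    ![6/29, 3/58, -1/116, -1/116, 1/232, 1/232, 1/232, 1/232, 0, 0],
    ![5/58, -3/29, 1/58, 1/58, -1/116, -1/116, -1/116, -1/116, 0, 0],
    ![6/29, 3/58, -1/116, -1/116, 1/232, 1/232, 1/232, 1/232, 0, 0],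
    ![6/29, 3/58, -1/116, -1/116, 1/232, 1/232, 1/232, 1/232, 0, 0]]

def Z1 : Fin 6 → Fin 10 → ℚ := ![![-1/116, 11/116, 1/232, 1/232, 3/232, 3/232, -1/232, -1/232, -1/232, -1/232],
    ![15/116, 9/116, -1/464, -1/464, -3/464, -3/464, 1/464, 1/464, 1/464, 1/464],
    ![15/116, 9/116, -1/464, -1/464, -3/464, -3/464, 1/464, 1/464, 1/464, 1/464],
    ![1/116, -11/116, -1/232, -1/232, -3/232, -3/232, 1/232, 1/232, 1/232, 1/232],
    ![-15/116, -9/116, 1/464, 1/464, 3/464, 3/464, -1/464, -1/464, -1/464, -1/464],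
    ![-15/116, -9/116, 1/464, 1/464, 3/464, 3/464, -1/464, -1/464, -1/464, -1/464]]

def Z2 : Fin 6 → Fin 10 → ℚ := ![![0, 0, 0, 0, 0, 0, 0, 0, 0, 0],
    ![-1/29, -1/116, 1/232, 1/232, 0, 0, 0, 0, 0, 0],
    ![1/29, 1/116, -1/232, -1/232, 0, 0, 0, 0, 0, 0],
    ![0, 0, 0, 0, 0, 0, 0, 0, 0, 0],
    ![-1/29, -1/116, 1/232, 1/232, 0, 0, 0, 0, 0, 0],
    ![1/29, 1/116, -1/232, -1/232, 0, 0, 0, 0, 0, 0]]

def Z3 : Fin 6 → Fin 10 → ℚ := ![![0, 0, 0, 0, 0, 0, 0, 0, 0, 0],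
    ![-5/232, -3/232, 1/464, 1/464, 1/464, 1/464, 0, 0, 0, 0],
    ![5/232, 3/232, -1/464, -1/464, -1/464, -1/464, 0, 0, 0, 0],
    ![0, 0, 0, 0, 0, 0, 0, 0, 0, 0],
    ![5/232, 3/232, -1/464, -1/464, -1/464, -1/464, 0, 0, 0, 0],
    ![-5/232, -3/232, 1/464, 1/464, 1/464, 1/464, 0, 0, 0, 0]]


def aa : Fin 6 → ℚ := ![2, 2, 2, -2, -2, -2]

def ee : Fin 6 → ℤ := ![0, 1, -1, 0, 1, -1]

def cc : Fin 2 → Fin 10 := ![0, 1]

lemma f1 : ∀ k i, ∑ j, (DD i j : ℚ) * Z0 k j = 6 * Z0 k i + 2 * aa k * Z1 k i + 58 * ee k * Z2 k i ∧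
    ∑ j, (DD i j : ℚ) * Z1 k j = 6 * Z1 k i + aa k * Z0 k i + 58 * ee k * Z3 k i ∧
    ∑ j, (DD i j : ℚ) * Z2 k j = 6 * Z2 k i + 2 * aa k * Z3 k i + 2 * ee k * Z0 k i ∧
    ∑ j, (DD i j : ℚ) * Z3 k j = 6 * Z3 k i + aa k * Z2 k i + 2 * ee k * Z1 k i := by
  decide +kernel

lemma f3 : ∀ i, Z0 0 i + Z0 1 i + Z0 2 i = (if i = 0 then 1 / 2 else 0) ∧
    Z1 0 i + Z1 1 i + Z1 2 i = (if i = 0 then 1 / 4 else 0) + (if i = 1 then 1 / 4 else 0) ∧
    Z2 0 i + Z2 1 i + Z2 2 i = 0 ∧ Z3 0 i + Z3 1 i + Z3 2 i = 0 ∧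
    Z0 3 i + Z0 4 i + Z0 5 i = (if i = 0 then 1 / 2 else 0) ∧
    Z1 3 i + Z1 4 i + Z1 5 i = (if i = 0 then -1 / 4 else 0) + (if i = 1 then -1 / 4 else 0) ∧
    Z2 3 i + Z2 4 i + Z2 5 i = 0 ∧ Z3 3 i + Z3 4 i + Z3 5 i = 0 := by
  decide +kernel

noncomputable def θ (k : Fin 6) : ℝ := 6 + aa k * √2 + 2 * ee k * √29

noncomputable def τ : ℝ := Real.pi / √29

lemma phase (k : Fin 6) : exp (I * τ * θ k) = exp (I * τ * (6 + aa k * (√2 : ℝ))) := by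
  have r0 : ((√29 : ℝ) : ℂ) ≠ 0 := by exact_mod_cast (by positivity : √29 ≠ 0)
  have e : I * τ * θ k = I * τ * (6 + aa k * (√2 : ℝ)) + (ee k : ℤ) * (2 * Real.pi * I) := by
    unfold τ θ; push_cast; field_simp
  rw [e, exp_add, exp_int_mul_two_pi_mul_I, mul_one]

lemma rr : √2 * √2 = 2 := Real.mul_self_sqrt (by norm_num)

lemma qq : √29 * √29 = 29 := Real.mul_self_sqrt (by norm_num)

lemma ind2 (x y : ℚ) (h : (x : ℝ) + y * √2 = 0) : x = 0 ∧ y = 0 := by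
  by_cases hy : y = 0
  · rw [hy] at h; exact ⟨by simpa using h, hy⟩
  · have hy' : (y : ℝ) ≠ 0 := by exact_mod_cast hy
    exact absurd ⟨-x / y, by push_cast; field_simp; linarith⟩ irrational_sqrt_two

lemma ind4 (x y z w : ℚ) (h : (x : ℝ) + y * √2 + z * √29 + w * (√2 * √29) = 0) :
    z = 0 ∧ w = 0 := by
  by_contra hc
  have N0 : z ^ 2 - 2 * w ^ 2 ≠ 0 := by
    intro e
    have e' : (z : ℝ) ^ 2 - 2 * w ^ 2 = 0 := by exact_mod_cast e
    have : ((z : ℝ) + w * √2) * (z + (-w : ℚ) * √2) = 0 := by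
      push_cast; linear_combination e' - (w : ℝ) ^ 2 * rr
    rcases mul_eq_zero.1 this with h | h
    · exact hc (ind2 _ _ h)
    · exact hc ⟨(ind2 _ _ h).1, neg_eq_zero.1 (ind2 _ _ h).2⟩
  obtain ⟨N, hN⟩ : ∃ N, N = z ^ 2 - 2 * w ^ 2 := ⟨_, rfl⟩
  obtain ⟨u, hu⟩ : ∃ u, u = 2 * y * w - x * z := ⟨_, rfl⟩
  obtain ⟨v, hv⟩ : ∃ v, v = x * w - y * z := ⟨_, rfl⟩
  have e : √29 * N = u + v * √2 := by
    rw [hN, hu, hv]; push_cast
    linear_combination ((z : ℝ) - w * √2) * h + ((y : ℝ) * w + w ^ 2 * √29) * rr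
  have N1 : (N : ℝ) ≠ 0 := by rw [← hN] at N0; exact_mod_cast N0
  have e2 := (ind2 (u ^ 2 + 2 * v ^ 2 - 29 * N ^ 2) (2 * u * v) (by
    push_cast
    linear_combination (-(√29 * N + u + v * √2)) * e + (N : ℝ) ^ 2 * qq - (v : ℝ) ^ 2 * rr)).2
  rcases mul_eq_zero.1 e2 with h1 | h1
  · have u0 : u = 0 := by linarith
    have : Irrational √58 := by norm_num
    refine this ⟨2 * v / N, ?_⟩
    rw [show (58 : ℝ) = 2 * 29 by norm_num, Real.sqrt_mul (by norm_num)]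
    rw [u0] at e
    push_cast at e ⊢
    field_simp
    linear_combination (-√2) * e - (v : ℝ) * rr
  · have : Irrational √29 := by norm_num
    refine this ⟨u / N, ?_⟩
    rw [h1] at e
    push_cast at e ⊢
    field_simp
    linarith

lemma deg : 3 ≤ (minpoly ℚ (θ 1)).natDegree := by
  have t1 : θ 1 = 6 + 2 * √2 + 2 * √29 := by simp [θ, aa, ee]
  have i2 : IsIntegral ℚ √2 := IsIntegral.of_pow two_pos (by
    rw [pow_two, rr]; exact isIntegral_algebraMap (x := (2 : ℚ)))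
  have i29 : IsIntegral ℚ √29 := IsIntegral.of_pow two_pos (by
    rw [pow_two, qq]; exact isIntegral_algebraMap (x := (29 : ℚ)))
  have c : ∀ n : ℕ, IsIntegral ℚ (n : ℝ) := fun n => isIntegral_natCast n
  have it : IsIntegral ℚ (θ 1) := by
    rw [t1]; exact ((c 6).add ((c 2).mul i2)).add ((c 2).mul i29)
  by_contra hc
  have e := minpoly.aeval ℚ (θ 1)
  obtain ⟨p, hp⟩ : ∃ p, p = minpoly ℚ (θ 1) := ⟨_, rfl⟩
  have p0 := minpoly.ne_zero it
  rw [← hp] at hc e p0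
  rw [aeval_eq_sum_range' (n := 3) (by omega), t1] at e
  simp only [sum_range_succ, sum_range_zero, Rat.smul_def] at e
  have h1 := ind4 (p.coeff 0 + 6 * p.coeff 1 + 160 * p.coeff 2) (2 * p.coeff 1 + 24 * p.coeff 2)
    (2 * p.coeff 1 + 24 * p.coeff 2) (8 * p.coeff 2) (by
      push_cast
      linear_combination e - 4 * (p.coeff 2 : ℝ) * rr - 4 * (p.coeff 2 : ℝ) * qq)
  have c2 : p.coeff 2 = 0 := by linarith [h1.2]
  have c1 : p.coeff 1 = 0 := by linarith [h1.1]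
  have c0 : p.coeff 0 = 0 := by simpa [c1, c2] using e
  apply p0
  ext n
  rcases n with _ | _ | _ | n
  · exact c0
  · exact c1
  · exact c2
  · exact coeff_eq_zero_of_natDegree_lt (by omega)

theorem result : ∃ (V : Type) (_ : Fintype V) (_ : DecidableEq V) (G : SimpleGraph V)
    (_ : DecidableRel G.Adj) (a b : V), a ≠ b ∧
      (∃ (t : ℝ) (α β : ℂ), 0 < t ∧ α ≠ 0 ∧ β ≠ 0 ∧
        NormedSpace.exp ((I * t) • G.adjMatrix ℂ) *ᵥ Pi.single a 1 =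
          α • (Pi.single a 1 : V → ℂ) + β • (Pi.single b 1 : V → ℂ)) ∧
      ∃ x ∈ supp (G.adjMatrix ℝ) a, 3 ≤ (minpoly ℚ x).natDegree := by
  obtain ⟨n, hn, n1, G, iG, hG⟩ : ∃ n : Fin 10 → ℕ, (∀ i, 0 < n i) ∧ (∀ s, n (cc s) = 1) ∧
      ∃ (G : SimpleGraph (Σ i, Fin (n i))) (_ : DecidableRel G.Adj), ∀ f : Fin 10 → ℝ,
      (G.adjMatrix ℝ *ᵥ fun v => f v.1) = fun x => ∑ j, (DD x.1 j : ℝ) * f j :=
    ⟨nn, by decide, by decide, Pool.Agent.H11.Fr.ublow nn (by decide) DD (by decide +kernel)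
      (by decide +kernel) (by decide +kernel)⟩
  have r0 : 0 < √2 := by positivity
  have q0 : 0 < √29 := by positivity
  let a : Fin 2 → Σ i, Fin (n i) := fun s => ⟨cc s, ⟨0, hn _⟩⟩
  have ha : ∀ s (v : Σ i, Fin (n i)), v = a s ↔ v.1 = cc s := by
    rintro s ⟨i, u⟩
    refine ⟨fun e => congrArg Sigma.fst e, ?_⟩
    rintro rfl
    have : u = ⟨0, hn _⟩ := Fin.ext (by have := u.2; have := n1 s; simp only; omega)
    subst this; rfl
  obtain ⟨Y, hY⟩ : ∃ Y : Fin 6 → Fin 10 → ℝ, ∀ k i,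
      Y k i = Z0 k i + Z1 k i * √2 + Z2 k i * √29 + Z3 k i * (√2 * √29) := ⟨_, fun _ _ => rfl⟩
  let y : Fin 6 → (Σ i, Fin (n i)) → ℝ := fun k v => Y k v.1
  have h1 : ∀ k, G.adjMatrix ℝ *ᵥ y k = θ k • y k := by
    intro k
    refine (hG (Y k)).trans ?_
    funext x
    have e0 := congrArg (Rat.cast : ℚ → ℝ) (f1 k x.1).1
    have e1 := congrArg (Rat.cast : ℚ → ℝ) (f1 k x.1).2.1
    have e2 := congrArg (Rat.cast : ℚ → ℝ) (f1 k x.1).2.2.1
    have e3 := congrArg (Rat.cast : ℚ → ℝ) (f1 k x.1).2.2.2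
    push_cast at e0 e1 e2 e3
    simp only [hY, mul_add, sum_add_distrib, ← mul_assoc, ← sum_mul, e0, e1, e2, e3, Pi.smul_apply,
      smul_eq_mul, y, θ]
    linear_combination (-(aa k : ℝ) * (Z1 k x.1 + Z3 k x.1 * √29)) * rr -
      (2 * (ee k : ℝ) * (Z2 k x.1 + Z3 k x.1 * √2)) * qq
  have s1 : ∀ i, Y 0 i + Y 1 i + Y 2 i =
      (if i = 0 then (2 + √2) / 4 else 0) + (if i = 1 then √2 / 4 else 0) ∧
      Y 3 i + Y 4 i + Y 5 i =
      (if i = 0 then (2 - √2) / 4 else 0) + (if i = 1 then -√2 / 4 else 0) := by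
    intro i
    obtain ⟨a0, a1, a2, a3, b0, b1, b2, b3⟩ := f3 i
    have a0 := congrArg (Rat.cast : ℚ → ℝ) a0
    have a1 := congrArg (Rat.cast : ℚ → ℝ) a1
    have a2 := congrArg (Rat.cast : ℚ → ℝ) a2
    have a3 := congrArg (Rat.cast : ℚ → ℝ) a3
    have b0 := congrArg (Rat.cast : ℚ → ℝ) b0
    have b1 := congrArg (Rat.cast : ℚ → ℝ) b1
    have b2 := congrArg (Rat.cast : ℚ → ℝ) b2
    have b3 := congrArg (Rat.cast : ℚ → ℝ) b3
    simp only [hY]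
    split_ifs at * <;> push_cast at * <;> constructor <;>
      first
        | linear_combination a0 + √2 * a1 + √29 * a2 + √2 * √29 * a3
        | linear_combination b0 + √2 * b1 + √29 * b2 + √2 * √29 * b3
  have h2 : ∑ k, y k = Pi.single (a 0) 1 := by
    funext x
    obtain ⟨e1, e2⟩ := s1 x.1
    simp only [Finset.sum_apply, Fin.sum_univ_six, y, Pi.single_apply, ha,
      show cc 0 = 0 from rfl]
    split_ifs at * <;> linarith
  refine ⟨_, inferInstance, inferInstance, G, iG, a 0, a 1, ?_,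
    ⟨τ, exp (I * τ * (6 + 2 * (√2 : ℝ))) * (((2 + √2) / 4 : ℝ) : ℂ) +
      exp (I * τ * (6 + -2 * (√2 : ℝ))) * (((2 - √2) / 4 : ℝ) : ℂ),
      (exp (I * τ * (6 + 2 * (√2 : ℝ))) - exp (I * τ * (6 + -2 * (√2 : ℝ)))) * ((√2 / 4 : ℝ) : ℂ),
      by unfold τ; positivity, ?_, ?_, ?_⟩, θ 1, ⟨y 1, ⟨h1 1, fun w hw => ?_⟩, ?_⟩, deg⟩
  · intro e
    exact absurd ((ha _ _).1 e) (show cc 0 ≠ cc 1 by decide)
  · intro e
    have := congrArg norm (eq_neg_of_add_eq_zero_left e)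
    rw [norm_neg, norm_mul, norm_mul, norm_exp, norm_exp, norm_real, norm_real] at this
    simp only [mul_re, mul_im, I_re, I_im, ofReal_re, ofReal_im, re_ofNat, im_ofNat, add_re,
      add_im, neg_re, neg_im] at this
    have r2 : √2 < 2 := by nlinarith [rr]
    rw [Real.norm_of_nonneg (by positivity), Real.norm_of_nonneg (by linarith)] at this
    norm_num at this
    linarith
  · refine mul_ne_zero (sub_ne_zero.2 fun e => ?_) (by exact_mod_cast (by positivity : √2 / 4 ≠ 0))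
    obtain ⟨m, hm⟩ := exp_eq_exp_iff_exists_int.1 e
    have := congrArg im hm
    simp [τ] at this
    have e2 : 2 * √2 = m * √29 := by
      have p0 := Real.pi_pos
      field_simp at this
      linarith
    have m0 : (0 : ℝ) < m := by
      by_contra hh
      nlinarith [mul_nonneg (neg_nonneg.2 (not_lt.1 hh)) q0.le]
    have m1 : (1 : ℝ) ≤ m := by
      have : 0 < m := by exact_mod_cast m0
      exact_mod_cast this
    have e3 : (m : ℝ) ^ 2 * 29 = 8 := by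
      linear_combination (-(2 * √2 + m * √29)) * e2 - (m : ℝ) ^ 2 * qq + 4 * rr
    nlinarith
  · have c1 : ∀ k, G.adjMatrix ℂ *ᵥ (fun v => (y k v : ℂ)) =
        (θ k : ℂ) • fun v => (y k v : ℂ) := by
      intro k
      funext x
      have := congrArg ofReal (congrFun (h1 k) x)
      simpa [SimpleGraph.adjMatrix_mulVec_apply] using this
    have c2 : (Pi.single (a 0) 1 : (Σ i, Fin (n i)) → ℂ) = ∑ k, fun v => (y k v : ℂ) := by
      funext x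
      have := congrArg ofReal (congrFun h2 x)
      rw [Finset.sum_apply, ofReal_sum] at this
      rw [Finset.sum_apply, this, Pi.single_apply, Pi.single_apply]
      split_ifs <;> simp
    conv_lhs => rw [c2, mulVec_sum, sum_congr rfl fun k _ => Pool.Agent.H11.Mst2.exp_eigen _ _
      (I * τ * θ k) (by rw [smul_mulVec, c1, smul_smul])]
    funext x
    obtain ⟨e1, e2⟩ := s1 x.1
    have e1 := congrArg ofReal e1
    have e2 := congrArg ofReal e2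
    have v : aa 0 = 2 ∧ aa 1 = 2 ∧ aa 2 = 2 ∧ aa 3 = -2 ∧ aa 4 = -2 ∧ aa 5 = -2 := by
      decide +kernel
    simp only [Finset.sum_apply, Fin.sum_univ_six, Pi.add_apply, Pi.smul_apply, smul_eq_mul,
      phase, y, Pi.single_apply, ha, show cc 0 = 0 from rfl, show cc 1 = 1 from rfl, v.1, v.2.1,
      v.2.2.1, v.2.2.2.1, v.2.2.2.2.1, v.2.2.2.2.2]
    split_ifs at * <;> push_cast at * <;>
      linear_combination exp (I * τ * (6 + 2 * (√2 : ℝ))) * e1 +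
        exp (I * τ * (6 + -2 * (√2 : ℝ))) * e2
  · rw [← h2, dotProduct_sub, dotProduct_sum, sum_eq_single 1, sub_self]
    · intro l _ hl
      refine Pool.Agent.H11.Fr.orth _ G.transpose_adjMatrix _ _ _ _ hw (h1 l) (ne_of_gt ?_)
      fin_cases l <;> simp [θ, aa, ee] at hl ⊢ <;> linarith
    · simp
  · intro e
    have := congrFun e (a 0)
    simp only [y, hY, Pi.zero_apply] at this
    exact absurd (ind4 _ _ _ _ this).2 (show Z3 1 (cc 0) ≠ 0 by decide +kernel)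

end Pool.Agent.Results.MP_884c22_co.DegreeFour
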